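import Mathlib

/-!
Independence number versus even-distance counts.  Fix a root `v` and a maximum independent set
`I`.  Send a vertex of `I` at even distance from `v` to itself and a vertex of `I` at odd distance
to a neighbour one step closer to `v`.  The fibre over `v` has at most `Λ` elements and the fibre
over any other even vertex has at most `Λ - 1` elements.
-/

open Finset

namespace Pool.Agent.Results.MP_c843e9_co.EvenBound

variable {V : Type*}

open Classical in
/-- Number of vertices at even distance from `v`, the vertex `v` included. -/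
noncomputable def evenCount [Fintype V] (G : SimpleGraph V) (v : V) : ℕ :=
  (univ.filter (fun u => Even (G.dist u v))).card

/-- Smallest value of `evenCount`. -/
noncomputable def minEvenCount [Fintype V] (G : SimpleGraph V) : ℕ :=
  sInf (Set.range (evenCount G))

/-- Largest independence number of the subgraph induced on an open neighbourhood. -/
noncomputable def maxLocalIndep [Fintype V] (G : SimpleGraph V) : ℕ :=
  univ.sup (fun v => (G.induce (G.neighborSet v)).indepNum)

theorem le_local [Fintype V] (G : SimpleGraph V) (w : V) (T : Finset V)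
    (hT : ∀ x ∈ T, G.Adj w x) (hT2 : ∀ x ∈ T, ∀ y ∈ T, ¬ G.Adj x y) :
    T.card ≤ maxLocalIndep G := by
  classical
  refine le_trans ?_ (le_sup (f := fun v => (G.induce (G.neighborSet v)).indepNum)
    (mem_univ w))
  have hcard : (T.subtype (fun x => x ∈ G.neighborSet w)).card = T.card := by
    rw [card_subtype, filter_true_of_mem (p := fun x => x ∈ G.neighborSet w)
      (fun x hx => hT x hx)]
  rw [← hcard]
  apply SimpleGraph.IsIndepSet.card_le_indepNum
  intro x hx y hy _ hxy
  exact hT2 x.1 (by simpa using hx) y.1 (by simpa using hy) hxy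

theorem adj_dist (G : SimpleGraph V) (hc : G.Connected) (r : V) {x y : V} (h : G.Adj x y) :
    G.dist y r ≤ G.dist x r + 1 := by
  have h3 := hc.dist_triangle (u := y) (v := x) (w := r)
  have := SimpleGraph.dist_eq_one_iff_adj.2 h.symm
  omega

theorem parent (G : SimpleGraph V) (hc : G.Connected) (r x : V) (hx : G.dist x r ≠ 0) :
    ∃ y, G.Adj x y ∧ G.dist y r + 1 = G.dist x r := by
  obtain ⟨w, hw⟩ := hc.exists_walk_length_eq_dist x r
  cases w with
  | nil => exact absurd hw.symm hx
  | @cons _ y _ h p =>
    refine ⟨y, h, ?_⟩
    have h1 := SimpleGraph.dist_le p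
    have h2 := adj_dist G hc r h.symm
    rw [SimpleGraph.Walk.length_cons] at hw
    omega

theorem main [Fintype V] [Nontrivial V] (G : SimpleGraph V) (hc : G.Connected) (v : V) :
    (G.indepNum : ℤ) ≤ 1 + (evenCount G v : ℤ) * ((maxLocalIndep G : ℤ) - 1) := by
  classical
  obtain ⟨I, hI⟩ := G.exists_isNIndepSet_indepNum
  have hI' : ∀ x ∈ I, ∀ y ∈ I, ¬ G.Adj x y := fun x hx y hy hxy =>
    hI.isIndepSet (mem_coe.2 hx) (mem_coe.2 hy) hxy.ne hxy
  choose! par hpar using parent G hc v
  set E := univ.filter (fun u => Even (G.dist u v)) with hE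
  let φ : V → V := fun x => if Even (G.dist x v) then x else par x
  have hodd : ∀ x, ¬ Even (G.dist x v) → G.dist x v ≠ 0 := fun x hx h => hx (by simp [h])
  have hφ : ∀ x ∈ I, φ x ∈ E := by
    intro x _
    rw [hE, mem_filter]
    refine ⟨mem_univ _, ?_⟩
    by_cases hx : Even (G.dist x v)
    · simp [φ, hx]
    · have := (hpar x (hodd x hx)).2
      simp only [φ, hx, if_false]
      rw [Nat.even_iff] at hx ⊢
      omega
  have hvE : v ∈ E := by simp [hE]
  have hΛ1 : 1 ≤ maxLocalIndep G := by
    obtain ⟨u, hu⟩ := exists_ne v
    have hu0 : G.dist u v ≠ 0 := fun h => hu (hc.dist_eq_zero_iff.1 h)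
    have := le_local G u {par u} (by simpa using (hpar u hu0).1) (by simp)
    simpa using this
  have fib : ∀ w ∈ E, ∀ x ∈ I.filter (fun x => φ x = w),
      x = w ∨ (G.Adj w x ∧ G.dist w v + 1 = G.dist x v) := by
    intro w _ x hx
    rw [mem_filter] at hx
    by_cases hx' : Even (G.dist x v)
    · left
      simpa [φ, hx'] using hx.2
    · right
      have h1 : par x = w := by simpa [φ, hx'] using hx.2
      have := hpar x (hodd x hx')
      rw [h1] at this
      exact ⟨this.1.symm, this.2⟩
  have fib1 : ∀ w ∈ E, w ∈ I → (I.filter (fun x => φ x = w)).card ≤ 1 := by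
    intro w hw hwI
    rw [card_le_one]
    have : ∀ x ∈ I.filter (fun x => φ x = w), x = w := by
      intro x hx
      rcases fib w hw x hx with h | h
      · exact h
      · exact absurd h.1 (hI' w hwI x (mem_filter.1 hx).1)
    intro a ha b hb
    rw [this a ha, this b hb]
  have fib2 : ∀ w ∈ E, w ∉ I → ∀ x ∈ I.filter (fun x => φ x = w),
      G.Adj w x ∧ G.dist w v + 1 = G.dist x v := by
    intro w hw hwI x hx
    rcases fib w hw x hx with h | h
    · exact absurd (h ▸ (mem_filter.1 hx).1) hwI
    · exact h
  have bv : (I.filter (fun x => φ x = v)).card ≤ maxLocalIndep G := by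
    by_cases hvI : v ∈ I
    · exact (fib1 v hvE hvI).trans hΛ1
    · exact le_local G v _ (fun x hx => (fib2 v hvE hvI x hx).1)
        (fun x hx y hy => hI' x (mem_filter.1 hx).1 y (mem_filter.1 hy).1)
  have bw : ∀ w ∈ E.erase v, (I.filter (fun x => φ x = w)).card + 1 ≤ maxLocalIndep G := by
    intro w hw
    rw [mem_erase] at hw
    have hw0 : G.dist w v ≠ 0 := fun h => hw.1 (hc.dist_eq_zero_iff.1 h)
    have hwe : Even (G.dist w v) := (mem_filter.1 hw.2).2
    obtain ⟨p1, p2⟩ := hpar w hw0
    by_cases hwI : w ∈ I
    · have hp0 : G.dist (par w) v ≠ 0 := by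
        rw [Nat.even_iff] at hwe
        omega
      obtain ⟨q1, q2⟩ := hpar (par w) hp0
      have hne : w ≠ par (par w) := fun h => by rw [← h] at q2; omega
      have hna : ¬ G.Adj w (par (par w)) := fun h => by
        have := adj_dist G hc v h.symm
        omega
      have h2 := le_local G (par w) {w, par (par w)}
        (by
          intro x hx
          rcases mem_insert.1 hx with rfl | hx
          · exact p1.symm
          · rw [mem_singleton.1 hx]; exact q1)
        (by
          intro x hx y hy
          simp only [mem_insert, mem_singleton] at hx hy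
          rcases hx with hx | hx <;> rcases hy with hy | hy <;> rw [hx, hy]
          · exact G.loopless.irrefl _
          · exact hna
          · exact fun h => hna h.symm
          · exact G.loopless.irrefl _)
      rw [card_pair hne] at h2
      have := fib1 w hw.2 hwI
      omega
    · have hf := fib2 w hw.2 hwI
      have hnot : par w ∉ I.filter (fun x => φ x = w) := fun h => by
        have := (hf _ h).2
        omega
      have hna : ∀ x ∈ I.filter (fun x => φ x = w), ¬ G.Adj (par w) x := fun x hx h => by
        have := (hf _ hx).2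
        have := adj_dist G hc v h
        omega
      rw [← card_insert_of_notMem hnot]
      apply le_local G w
      · intro x hx
        rcases mem_insert.1 hx with rfl | hx
        · exact p1
        · exact (hf x hx).1
      · intro x hx y hy
        rcases mem_insert.1 hx with rfl | hx <;> rcases mem_insert.1 hy with rfl | hy
        · exact G.loopless.irrefl _
        · exact hna y hy
        · exact fun h => hna x hx h.symm
        · exact hI' x (mem_filter.1 hx).1 y (mem_filter.1 hy).1
  have hsum := card_eq_sum_card_fiberwise (f := φ) (s := I) (t := E) hφ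
  rw [← add_sum_erase E _ hvE] at hsum
  have hs2 : ∑ w ∈ E.erase v, ((I.filter (fun x => φ x = w)).card + 1)
      ≤ (E.erase v).card * maxLocalIndep G := by
    have := sum_le_card_nsmul (E.erase v) _ _ bw
    simpa using this
  rw [sum_add_distrib, sum_const, smul_eq_mul, mul_one] at hs2
  have hcE : (E.erase v).card + 1 = evenCount G v := by
    rw [card_erase_add_one hvE, evenCount]
  rw [← hI.card_eq, ← hcE, hsum]
  have hs3 : ((∑ w ∈ E.erase v, (I.filter (fun x => φ x = w)).card : ℕ) : ℤ) + (E.erase v).card
      ≤ (E.erase v).card * maxLocalIndep G := by exact_mod_cast hs2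
  have bv' : (((I.filter (fun x => φ x = v)).card : ℕ) : ℤ) ≤ maxLocalIndep G := by
    exact_mod_cast bv
  rw [Nat.cast_add, Nat.cast_add, Nat.cast_one]
  nlinarith

theorem result {V : Type*} [Fintype V] (G : SimpleGraph V) (hc : G.Connected)
    (hV : 2 ≤ Fintype.card V) :
    (G.indepNum : ℤ) ≤ 1 + (minEvenCount G : ℤ) * ((maxLocalIndep G : ℤ) - 1) := by
  have : Nontrivial V := Fintype.one_lt_card_iff_nontrivial.1 hV
  obtain ⟨v, hv⟩ := Nat.sInf_mem (Set.range_nonempty (evenCount G))
  rw [minEvenCount, ← hv]
  exact main G hc v

end Pool.Agent.Results.MP_c843e9_co.EvenBound
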